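import Pool.Agent.W532.Slice.Upper

/-!
The disproof: for the cross carpet with `m = 2^40`, `n = m^3 + 1` there is a line through the
origin whose slice has Hausdorff dimension at least `39/320`, while the carpet has Hausdorff
dimension at most `16/15`.
-/

set_option autoImplicit false

namespace Pool.Agent.W532.Slice

open Real

/-- the slice -/
lemma slice_mem (m : ℕ) (hm : 8 ≤ m) (a : ℝ) (ha0 : 0 < a) (ha1 : a ≤ 1)
    (ha : ∀ l, ∃ t : ℕ, t * g m (m ^ 3 + 1) l ≤ a ∧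
      a ≤ t * g m (m ^ 3 + 1) l + 2 * g m (m ^ 3 + 1) (l + 1))
    (x : ℕ → Fin m) (hx : ∀ p, ¬ P p → (x p : ℕ) = 0) :
    (ofDigits x, a * ofDigits x) ∈ F m (m ^ 3 + 1) := by
  have hX0 := ofDigits_nonneg x
  have hX1 : ofDigits x ≤ 1 / 2 := by
    have h := ofDigits_eq_sum_add_ofDigits x 1
    rw [Finset.sum_range_one] at h
    have h0 : (x 0 : ℕ) = 0 := hx 0 (by
      rintro ⟨l, h1, h2⟩
      have : 0 < 8 ^ l := by positivity
      omega)
    have h1 : ofDigitsTerm x 0 = 0 := by simp [ofDigitsTerm, h0]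
    rw [h1, zero_add, pow_one] at h
    rw [h]
    have h2 := ofDigits_le_one (fun i ↦ x (i + 1))
    have h3 := ofDigits_nonneg (fun i ↦ x (i + 1))
    have hmR : (8 : ℝ) ≤ m := by exact_mod_cast hm
    have h4 : (m : ℝ)⁻¹ ≤ 1 / 2 := by
      rw [inv_le_comm₀ (by linarith) (by norm_num)]; norm_num; linarith
    have h5 : 0 ≤ (m : ℝ)⁻¹ := by positivity
    nlinarith
  have hy : a * ofDigits x ∈ Set.Ico (0 : ℝ) 1 := ⟨by positivity, by nlinarith⟩
  refine ⟨fun k => if P k then ((x k : ℕ), 0) else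
    (0, (digits (a * ofDigits x) (m ^ 3 + 1) k : ℕ)), ?_, ?_, ?_⟩
  · intro k
    by_cases hk : P k
    · simp only [hk, if_true]
      exact (mem_Dg _ _ _).2 (Or.inl ⟨(x k).2, rfl⟩)
    · simp only [hk, if_false]
      exact (mem_Dg _ _ _).2 (Or.inr ⟨rfl, (digits (a * ofDigits x) (m ^ 3 + 1) k).2⟩)
  · show ofDigits x = _
    unfold ofDigits
    congr 1
    ext k
    unfold ofDigitsTerm
    by_cases hk : P k
    · simp only [hk, if_true, div_eq_mul_inv]
    · simp only [hk, if_false, hx k hk, Nat.cast_zero, zero_mul, zero_div]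
  · show a * ofDigits x = _
    have h1 : ofDigits (digits (a * ofDigits x) (m ^ 3 + 1)) = a * ofDigits x :=
      ofDigits_digits (by
        have : 0 < m ^ 3 := pow_pos (by omega) 3
        omega) hy
    conv_lhs => rw [← h1]
    rw [ofDigits]
    congr 1
    ext k
    rw [ofDigitsTerm]
    by_cases hk : P k
    · have h2 := line_digit m hm a ha0 ha1 ha x hx k hk
      simp only [hk, if_true, h2, Nat.cast_zero, zero_mul, zero_div]
    · simp only [hk, if_false, div_eq_mul_inv]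

theorem main : ∃ (m n : ℕ), 2 ≤ m ∧ 2 ≤ n ∧ Irrational (Real.log (m : ℝ) / Real.log (n : ℝ)) ∧
    (∀ d ∈ Dg m n, d.1 < m ∧ d.2 < n) ∧ ∃ a : ℝ, a ≠ 0 ∧
      ¬ (dimH (F m n ∩ {p : ℝ × ℝ | p.2 = a * p.1 + 0}) ≤ dimH (F m n) - 1) := by
  have hmm8 : 8 ≤ mm := by norm_num [mm]
  obtain ⟨a, ha0, ha1, ha⟩ := slope mm hmm8
  have hlow : (al : ENNReal) ≤ dimH (F mm (mm ^ 3 + 1) ∩ {p : ℝ × ℝ | p.2 = a * p.1 + 0}) := by
    have h1 : E ⊆ Prod.fst '' (F mm (mm ^ 3 + 1) ∩ {p : ℝ × ℝ | p.2 = a * p.1 + 0}) := by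
      rintro _ ⟨τ, rfl⟩
      refine ⟨(ofDigits (xs τ), a * ofDigits (xs τ)), ⟨?_, ?_⟩, rfl⟩
      · exact slice_mem mm hmm8 a ha0 ha1 ha (xs τ) (xs_zero τ)
      · show a * ofDigits (xs τ) = a * ofDigits (xs τ) + 0
        ring
    calc (al : ENNReal) ≤ dimH E := al_le_dimH
      _ ≤ dimH (Prod.fst '' (F mm (mm ^ 3 + 1) ∩ {p : ℝ × ℝ | p.2 = a * p.1 + 0})) := dimH_mono h1
      _ ≤ _ := LipschitzWith.prod_fst.dimH_image_le _
  have hcast : ((mm ^ 3 + 1 : ℕ) : ℝ) = 2 ^ 120 + 1 := by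
    push_cast [mm]; norm_num
  have hup := dimH_F mm (mm ^ 3 + 1) mm_cast hcast (by norm_num [mm]) (Nat.succ_pos _)
  generalize hM : mm = M at *
  refine ⟨M, M ^ 3 + 1, by omega, ?_, ?_, ?_, a, ha0.ne', ?_⟩
  · have : 0 < M ^ 3 := by positivity
    omega
  · -- irrationality
    rw [irrational_iff_ne_rational]
    intro p q hq h
    have hMR : (1 : ℝ) < M := by
      have : 1 < M := by omega
      exact_mod_cast this
    have hNR : (1 : ℝ) < ((M ^ 3 + 1 : ℕ) : ℝ) := by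
      have : 1 < M ^ 3 + 1 := by
        have : 0 < M ^ 3 := by positivity
        omega
      exact_mod_cast this
    have hlM : 0 < Real.log M := Real.log_pos hMR
    have hlN : 0 < Real.log ((M ^ 3 + 1 : ℕ) : ℝ) := Real.log_pos hNR
    have hqR : (q : ℝ) ≠ 0 := by exact_mod_cast hq
    have h2 : (q : ℝ) * Real.log M = p * Real.log ((M ^ 3 + 1 : ℕ) : ℝ) := by
      field_simp at h
      linarith
    -- reduce to natural exponents
    have h3 : ((q.natAbs : ℕ) : ℝ) * Real.log M = (p.natAbs : ℕ) * Real.log ((M ^ 3 + 1 : ℕ) : ℝ) := by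
      have h4 := congrArg abs h2
      rw [abs_mul, abs_mul, abs_of_pos hlM, abs_of_pos hlN] at h4
      rw [Nat.cast_natAbs, Nat.cast_natAbs, Int.cast_abs, Int.cast_abs]
      exact h4
    rw [← Real.log_pow, ← Real.log_pow] at h3
    have h5 := Real.log_injOn_pos (Set.mem_Ioi.2 (by positivity)) (Set.mem_Ioi.2 (by positivity)) h3
    have h6 : M ^ q.natAbs = (M ^ 3 + 1) ^ p.natAbs := by exact_mod_cast h5
    have hq' : q.natAbs ≠ 0 := Int.natAbs_ne_zero.2 hq
    have hMeven : 2 ∣ M := by rw [← hM]; norm_num [mm]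
    have h7 : 2 ∣ M ^ q.natAbs := dvd_pow hMeven hq'
    rw [h6] at h7
    have h8 : 2 ∣ M ^ 3 + 1 := Nat.prime_two.dvd_of_dvd_pow h7
    have h9 : 2 ∣ M ^ 3 := dvd_pow hMeven (by norm_num)
    omega
  · intro d hd
    exact Dg_lt M (M ^ 3 + 1) (by omega) (by omega) d hd
  · intro h
    have h1 := hlow.trans h
    have h2 : (dimH (F M (M ^ 3 + 1)) - 1) ≤ ((16 / 15 : NNReal) : ENNReal) - 1 :=
      tsub_le_tsub_right hup 1
    have h3 := h1.trans h2
    have h4 : ((16 / 15 : NNReal) : ENNReal) - 1 = ((16 / 15 - 1 : NNReal) : ENNReal) := by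
      rw [ENNReal.coe_sub]; rfl
    rw [h4, ENNReal.coe_le_coe, ← NNReal.coe_le_coe, al_coe, NNReal.coe_sub] at h3
    · push_cast at h3
      norm_num at h3
    · rw [← NNReal.coe_le_coe]
      push_cast
      norm_num

end Pool.Agent.W532.Slice
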