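import Mathlib

/-!
A line whose slope is abnormally well approximable by numbers `t m^K / n^T`, and its
intersection with the cross carpet.
-/

set_option autoImplicit false

namespace Pool.Agent.W532.Slice

open Real

/-- the digit positions at which `x` is free (and the digits of `y` vanish) -/
def P (p : ℕ) : Prop := ∃ l : ℕ, 4 * 8 ^ l ≤ p ∧ p < 8 * 8 ^ l

noncomputable instance : DecidablePred P := Classical.decPred _

/-- granularity -/
noncomputable def g (m n l : ℕ) : ℝ := ((m : ℝ) ^ 8 / (n : ℝ) ^ 4) ^ (8 ^ l)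

lemma g_eq (m n l : ℕ) : g m n l = (m : ℝ) ^ (8 * 8 ^ l) / (n : ℝ) ^ (4 * 8 ^ l) := by
  unfold g
  rw [div_pow, ← pow_mul, ← pow_mul]

lemma rho_le (m : ℕ) (hm : 8 ≤ m) : ((m : ℝ) ^ 8 / ((m ^ 3 + 1 : ℕ) : ℝ) ^ 4) ≤ 1 / 8 := by
  have hm' : (8 : ℝ) ≤ m := by exact_mod_cast hm
  have h1 : ((m : ℝ) ^ 3) ^ 4 ≤ ((m ^ 3 + 1 : ℕ) : ℝ) ^ 4 := by
    gcongr; push_cast; linarith
  have h0 : (0 : ℝ) < ((m : ℝ) ^ 3) ^ 4 := by positivity
  rw [div_le_iff₀ (lt_of_lt_of_le h0 h1)]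
  have h2 : (m : ℝ) ^ 8 * 8 ≤ ((m : ℝ) ^ 3) ^ 4 := by
    calc (m : ℝ) ^ 8 * 8 ≤ (m : ℝ) ^ 8 * m ^ 4 := by
          gcongr
          calc (8 : ℝ) ≤ m := hm'
            _ ≤ m ^ 4 := le_self_pow₀ (by linarith) (by norm_num)
      _ = ((m : ℝ) ^ 3) ^ 4 := by ring
  linarith

lemma g_pos (m n l : ℕ) (hm : 0 < m) (hn : 0 < n) : 0 < g m n l := by
  have h1 : (0 : ℝ) < m := by exact_mod_cast hm
  have h2 : (0 : ℝ) < n := by exact_mod_cast hn
  unfold g; positivity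

lemma g_succ (m l : ℕ) (hm : 8 ≤ m) : 2 * g m (m ^ 3 + 1) (l + 1) ≤ g m (m ^ 3 + 1) l := by
  have h := rho_le m hm
  set ρ := ((m : ℝ) ^ 8 / ((m ^ 3 + 1 : ℕ) : ℝ) ^ 4) with hρ
  have h0 : 0 ≤ ρ := by positivity
  have e1 : g m (m ^ 3 + 1) (l + 1) = ρ ^ (8 ^ l) * ρ ^ (7 * 8 ^ l) := by
    unfold g; rw [← pow_add]; congr 1; ring
  have e2 : g m (m ^ 3 + 1) l = ρ ^ (8 ^ l) := rfl
  rw [e1, e2]
  have h3 : ρ ^ (7 * 8 ^ l) ≤ 1 / 8 := by
    calc ρ ^ (7 * 8 ^ l) ≤ ρ ^ 1 := by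
          apply pow_le_pow_of_le_one h0 (by linarith)
          have : 0 < 8 ^ l := by positivity
          omega
      _ ≤ 1 / 8 := by simpa using h
  have h4 : 0 ≤ ρ ^ (8 ^ l) := by positivity
  nlinarith

/-- the approximating slopes -/
noncomputable def r (m : ℕ) : ℕ → ℝ
  | 0 => g m (m ^ 3 + 1) 0
  | (l + 1) => (⌈r m l / g m (m ^ 3 + 1) (l + 1)⌉₊ : ℝ) * g m (m ^ 3 + 1) (l + 1)

lemma r_mult (m l : ℕ) : ∃ t : ℕ, r m l = t * g m (m ^ 3 + 1) l := by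
  cases l with
  | zero => exact ⟨1, by simp [r]⟩
  | succ l => exact ⟨_, rfl⟩

lemma r_nonneg (m l : ℕ) (hm : 8 ≤ m) : 0 ≤ r m l := by
  obtain ⟨t, ht⟩ := r_mult m l
  rw [ht]
  have := g_pos m (m ^ 3 + 1) l (by omega) (by omega)
  positivity

lemma r_succ_ge (m l : ℕ) (hm : 8 ≤ m) : r m l ≤ r m (l + 1) := by
  have hg := g_pos m (m ^ 3 + 1) (l + 1) (by omega) (by omega)
  rw [r]
  rw [← div_le_iff₀ hg]
  exact Nat.le_ceil _

lemma r_succ_le (m l : ℕ) (hm : 8 ≤ m) : r m (l + 1) ≤ r m l + g m (m ^ 3 + 1) (l + 1) := by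
  have hg := g_pos m (m ^ 3 + 1) (l + 1) (by omega) (by omega)
  rw [r]
  have h := (Nat.ceil_lt_add_one (div_nonneg (r_nonneg m l hm) hg.le)).le
  calc (⌈r m l / g m (m ^ 3 + 1) (l + 1)⌉₊ : ℝ) * g m (m ^ 3 + 1) (l + 1)
      ≤ (r m l / g m (m ^ 3 + 1) (l + 1) + 1) * g m (m ^ 3 + 1) (l + 1) := by gcongr
    _ = r m l + g m (m ^ 3 + 1) (l + 1) := by field_simp

lemma slope (m : ℕ) (hm : 8 ≤ m) : ∃ a : ℝ, 0 < a ∧ a ≤ 1 ∧ ∀ l, ∃ t : ℕ,
    t * g m (m ^ 3 + 1) l ≤ a ∧ a ≤ t * g m (m ^ 3 + 1) l + 2 * g m (m ^ 3 + 1) (l + 1) := by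
  set G := g m (m ^ 3 + 1) with hG
  have hGpos : ∀ l, 0 < G l := fun l => g_pos m (m ^ 3 + 1) l (by omega) (by omega)
  have hmono : Monotone (r m) := monotone_nat_of_le_succ (fun l => r_succ_ge m l hm)
  have hanti : Antitone (fun l => r m l + 2 * G (l + 1)) := by
    apply antitone_nat_of_succ_le
    intro l
    have h1 := r_succ_le m l hm
    have h2 := g_succ m (l + 1) hm
    simp only [← hG] at h1 h2
    linarith
  have hrs : ∀ j l, r m j ≤ r m l + 2 * G (l + 1) := by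
    intro j l
    calc r m j ≤ r m (max j l) := hmono (le_max_left _ _)
      _ ≤ r m (max j l) + 2 * G (max j l + 1) := by have := hGpos (max j l + 1); linarith
      _ ≤ r m l + 2 * G (l + 1) := hanti (le_max_right _ _)
  have hbdd : BddAbove (Set.range (r m)) := ⟨r m 0 + 2 * G (0 + 1), by
    rintro _ ⟨j, rfl⟩; exact hrs j 0⟩
  refine ⟨⨆ j, r m j, ?_, ?_, ?_⟩
  · refine lt_of_lt_of_le ?_ (le_ciSup hbdd 0)
    exact hGpos 0
  · apply ciSup_le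
    intro j
    refine (hrs j 0).trans ?_
    have h1 := g_succ m 0 hm
    have h2 : r m 0 = G 0 := rfl
    have h3 : G 0 ≤ 1 / 8 := by
      have := rho_le m hm
      simp only [hG, g, pow_zero, pow_one]
      exact this
    simp only [← hG] at h1
    linarith
  · intro l
    obtain ⟨t, ht⟩ := r_mult m l
    refine ⟨t, ?_, ?_⟩
    · rw [← ht]; exact le_ciSup hbdd l
    · rw [← ht]; exact ciSup_le (fun j => hrs j l)

/-- the finite sums are integers over `m^K` -/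
lemma partial_int {m : ℕ} (x : ℕ → Fin m) (K : ℕ) (hm : 0 < m) :
    ∃ A : ℕ, ∑ i ∈ Finset.range K, ofDigitsTerm x i = A / (m : ℝ) ^ K := by
  have hm' : (m : ℝ) ≠ 0 := by positivity
  induction K with
  | zero => exact ⟨0, by simp⟩
  | succ K ih =>
    obtain ⟨A, hA⟩ := ih
    refine ⟨A * m + (x K : ℕ), ?_⟩
    rw [Finset.sum_range_succ, hA, ofDigitsTerm]
    push_cast
    field_simp
    ring

lemma line_digit (m : ℕ) (hm : 8 ≤ m) (a : ℝ) (ha0 : 0 < a) (ha1 : a ≤ 1)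
    (ha : ∀ l, ∃ t : ℕ, t * g m (m ^ 3 + 1) l ≤ a ∧
      a ≤ t * g m (m ^ 3 + 1) l + 2 * g m (m ^ 3 + 1) (l + 1))
    (x : ℕ → Fin m) (hx : ∀ p, ¬ P p → (x p : ℕ) = 0) (p : ℕ) (hp : P p) :
    ((digits (a * ofDigits x) (m ^ 3 + 1) p : Fin (m ^ 3 + 1)) : ℕ) = 0 := by
  obtain ⟨l, hl1, hl2⟩ := hp
  obtain ⟨t, ht1, ht2⟩ := ha l
  have hmR : (8 : ℝ) ≤ m := by exact_mod_cast hm
  have hm0 : (0 : ℝ) < m := by linarith
  set n : ℕ := m ^ 3 + 1 with hn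
  have hnR : (n : ℝ) = (m : ℝ) ^ 3 + 1 := by rw [hn]; push_cast; ring
  have hn0 : (0 : ℝ) < n := by rw [hnR]; positivity
  set R : ℕ := 8 ^ l with hR
  have hRpos : 0 < R := by positivity
  set K : ℕ := 8 * R with hK
  set T : ℕ := 4 * R with hT
  -- decomposition of `X`
  have hX := ofDigits_eq_sum_add_ofDigits x (4 * K)
  set X := ofDigits x with hXdef
  set X'' := ofDigits (fun i ↦ x (i + 4 * K)) with hX''
  have hX''0 : 0 ≤ X'' := ofDigits_nonneg _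
  have hX''1 : X'' ≤ 1 := ofDigits_le_one _
  have hsum : ∑ i ∈ Finset.range (4 * K), ofDigitsTerm x i
      = ∑ i ∈ Finset.range K, ofDigitsTerm x i := by
    symm
    apply Finset.sum_subset
    · intro i hi; simp only [Finset.mem_range] at hi ⊢; omega
    · intro i hi1 hi2
      simp only [Finset.mem_range, not_lt] at hi1 hi2
      have : ¬ P i := by
        rintro ⟨l', h1, h2⟩
        have hh1 : 8 ^ l < 8 ^ (l' ) * 8 := by
          have : K ≤ i := hi2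
          have h3 : 8 * 8 ^ l ≤ i := this
          omega
        have hh2 : 8 ^ l' < 8 ^ l * 8 := by
          have h3 : i < 4 * (8 * 8 ^ l) := hi1
          omega
        have a1 : l < l' + 1 := by
          rw [← pow_succ] at hh1
          exact (Nat.pow_lt_pow_iff_right (by norm_num)).1 hh1
        have a2 : l' < l + 1 := by
          rw [← pow_succ] at hh2
          exact (Nat.pow_lt_pow_iff_right (by norm_num)).1 hh2
        have a3 : l' = l := by omega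
        subst a3
        omega
      rw [ofDigitsTerm, hx i this]; simp
  rw [hsum] at hX
  obtain ⟨A, hA⟩ := partial_int x K (by omega)
  set S := ∑ i ∈ Finset.range K, ofDigitsTerm x i with hS
  have hS0 : 0 ≤ S := by rw [hA]; positivity
  have hX1 : X ≤ 1 := ofDigits_le_one _
  have hS1 : S ≤ 1 := by
    have : 0 ≤ ((m : ℝ) ^ (4 * K))⁻¹ * X'' := by positivity
    linarith
  -- the decomposition of `y`
  have hgl : g m n l = (m : ℝ) ^ K / (n : ℝ) ^ T := g_eq m n l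
  have hgl1 : g m n (l + 1) = (m : ℝ) ^ (8 * K) / (n : ℝ) ^ (4 * K) := by
    rw [g_eq]
    have e : 8 ^ (l + 1) = K := by rw [pow_succ, hK, hR]; ring
    rw [e]
  set φ : ℝ := (a - t * g m n l) * S + a * (((m : ℝ) ^ (4 * K))⁻¹ * X'') with hφ
  have hy : a * X = (t * A : ℕ) / (n : ℝ) ^ T + φ := by
    rw [hX, hφ]
    have : t * g m n l * S = (t * A : ℕ) / (n : ℝ) ^ T := by
      rw [hgl, hA]; push_cast; field_simp
    rw [← this]; ring
  have hφ0 : 0 ≤ φ := by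
    rw [hφ]
    have : 0 ≤ a - t * g m n l := by linarith
    positivity
  have hgpos : 0 < g m n (l + 1) := g_pos m n (l + 1) (by omega) (by omega)
  have hφ1 : φ ≤ 2 * g m n (l + 1) + ((m : ℝ) ^ (4 * K))⁻¹ := by
    rw [hφ]
    have h1 : (a - t * g m n l) * S ≤ 2 * g m n (l + 1) * 1 := by
      apply mul_le_mul (by linarith) hS1 hS0 (by positivity)
    have h2 : a * (((m : ℝ) ^ (4 * K))⁻¹ * X'') ≤ 1 * (((m : ℝ) ^ (4 * K))⁻¹ * 1) := by
      gcongr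
    linarith
  have hφ2 : φ * (n : ℝ) ^ K < 1 := by
    have e1 : g m n (l + 1) * (n : ℝ) ^ K = ((m : ℝ) ^ 8 / (n : ℝ) ^ 3) ^ K := by
      rw [hgl1, div_pow, ← pow_mul, ← pow_mul]
      have : (n : ℝ) ^ (4 * K) = (n : ℝ) ^ (3 * K) * (n : ℝ) ^ K := by rw [← pow_add]; congr 1; ring
      rw [this]; field_simp
    have e2 : ((m : ℝ) ^ (4 * K))⁻¹ * (n : ℝ) ^ K = ((n : ℝ) / (m : ℝ) ^ 4) ^ K := by
      rw [div_pow, ← pow_mul]; field_simp
    have b1 : (m : ℝ) ^ 8 / (n : ℝ) ^ 3 ≤ 1 / 8 := by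
      rw [div_le_iff₀ (by positivity)]
      have h1 : ((m : ℝ) ^ 3) ^ 3 ≤ (n : ℝ) ^ 3 := by
        gcongr; rw [hnR]; linarith
      have h2 : (m : ℝ) ^ 8 * 8 ≤ ((m : ℝ) ^ 3) ^ 3 := by
        calc (m : ℝ) ^ 8 * 8 ≤ (m : ℝ) ^ 8 * m := by gcongr
          _ = ((m : ℝ) ^ 3) ^ 3 := by ring
      linarith
    have b2 : (n : ℝ) / (m : ℝ) ^ 4 ≤ 1 / 4 := by
      rw [div_le_iff₀ (by positivity), hnR]
      have h1 : (m : ℝ) ^ 4 = m * m ^ 3 := by ring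
      have h2 : (1 : ℝ) ≤ m ^ 3 := one_le_pow₀ (by linarith)
      rw [h1]
      nlinarith
    have c1 : ((m : ℝ) ^ 8 / (n : ℝ) ^ 3) ^ K ≤ 1 / 8 := by
      calc ((m : ℝ) ^ 8 / (n : ℝ) ^ 3) ^ K ≤ ((m : ℝ) ^ 8 / (n : ℝ) ^ 3) ^ 1 := by
            apply pow_le_pow_of_le_one (by positivity) (by linarith); omega
        _ ≤ 1 / 8 := by simpa using b1
    have c2 : ((n : ℝ) / (m : ℝ) ^ 4) ^ K ≤ 1 / 4 := by
      calc ((n : ℝ) / (m : ℝ) ^ 4) ^ K ≤ ((n : ℝ) / (m : ℝ) ^ 4) ^ 1 := by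
            apply pow_le_pow_of_le_one (by positivity) (by linarith); omega
        _ ≤ 1 / 4 := by simpa using b2
    calc φ * (n : ℝ) ^ K ≤ (2 * g m n (l + 1) + ((m : ℝ) ^ (4 * K))⁻¹) * (n : ℝ) ^ K := by
          gcongr
      _ = 2 * (g m n (l + 1) * (n : ℝ) ^ K) + ((m : ℝ) ^ (4 * K))⁻¹ * (n : ℝ) ^ K := by ring
      _ ≤ 2 * (1 / 8) + 1 / 4 := by rw [e1, e2]; gcongr
      _ < 1 := by norm_num
  -- the floor
  have hTp : T ≤ p := hl1
  have hpK : p < K := hl2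
  obtain ⟨q, hq⟩ : ∃ q, p + 1 = T + (q + 1) := ⟨p - T, by omega⟩
  have hval : a * X * (n : ℝ) ^ (p + 1) = ((t * A * n ^ (q + 1) : ℕ) : ℝ) + φ * (n : ℝ) ^ (p + 1) := by
    rw [hy, add_mul]
    congr 1
    rw [hq, pow_add]
    push_cast
    field_simp
  have hφp : φ * (n : ℝ) ^ (p + 1) < 1 := by
    refine lt_of_le_of_lt ?_ hφ2
    have h1n : (1 : ℝ) ≤ n := by rw [hnR]; have : (0:ℝ) ≤ m ^ 3 := by positivity
                                 linarith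
    have : (n : ℝ) ^ (p + 1) ≤ (n : ℝ) ^ K := pow_le_pow_right₀ h1n (by omega)
    gcongr
  have hfloor : ⌊a * X * (n : ℝ) ^ (p + 1)⌋₊ = t * A * n ^ (q + 1) := by
    rw [hval, add_comm, Nat.floor_add_natCast (by positivity)]
    have : ⌊φ * (n : ℝ) ^ (p + 1)⌋₊ = 0 := Nat.floor_eq_zero.2 hφp
    omega
  have hnn : (↑(m ^ 3 + 1 : ℕ) : ℝ) = (n : ℝ) := by rw [hn]
  unfold digits
  rw [Fin.val_ofNat]
  have : ⌊a * X * ((m ^ 3 + 1 : ℕ) : ℝ) ^ (p + 1)⌋₊ = t * A * n ^ (q + 1) := by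
    rw [← hfloor]
  rw [this, ← hn, pow_succ]
  rw [← mul_assoc]
  exact Nat.mul_mod_left _ _

end Pool.Agent.W532.Slice
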