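import Pool.Agent.W532.Slice.Line

/-!
Lower bound for the Hausdorff dimension of the set of all `x` whose base `2^40` digits vanish
outside `P` and are smaller than `2^39`.
-/

set_option autoImplicit false

namespace Pool.Agent.W532.Slice

open Real

/-- number of elements of `P` below `p` -/
noncomputable def cnt (p : ℕ) : ℕ := Nat.count P p

lemma cnt_add (p q : ℕ) (h : ∀ i < q, P (p + i)) : cnt (p + q) = cnt p + q := by
  induction q with
  | zero => rfl
  | succ q ih =>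
    have h1 := ih (fun i hi => h i (by omega))
    unfold cnt at *
    rw [← add_assoc, Nat.count_succ, h1, if_pos (h q (by omega))]
    ring

lemma cnt_low (l : ℕ) : 8 ^ l ≤ 2 * cnt (4 * 8 ^ l) + 1 := by
  induction l with
  | zero => simp
  | succ l ih =>
    have h1 : cnt (4 * 8 ^ l + 4 * 8 ^ l) = cnt (4 * 8 ^ l) + 4 * 8 ^ l :=
      cnt_add _ _ (fun i hi => ⟨l, by omega, by omega⟩)
    have h2 : cnt (4 * 8 ^ l + 4 * 8 ^ l) ≤ cnt (4 * 8 ^ (l + 1)) := by
      apply Nat.count_monotone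
      rw [pow_succ]; omega
    rw [pow_succ] at *
    omega

lemma le_cnt (p : ℕ) (hp : P p) : p ≤ 8 * cnt p + 4 := by
  obtain ⟨l, h1, h2⟩ := hp
  obtain ⟨q, rfl⟩ : ∃ q, p = 4 * 8 ^ l + q := ⟨p - 4 * 8 ^ l, by omega⟩
  have h3 : cnt (4 * 8 ^ l + q) = cnt (4 * 8 ^ l) + q :=
    cnt_add _ _ (fun i hi => ⟨l, by omega, by omega⟩)
  have h4 := cnt_low l
  omega

lemma P_infinite : (Set.ofPred P).Infinite := by
  apply Set.infinite_of_not_bddAbove
  rintro ⟨B, hB⟩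
  have h0 : 0 < 8 ^ B := by positivity
  have h : P (4 * 8 ^ B) := ⟨B, le_rfl, by omega⟩
  have h1 := hB h
  have h2 : B < 8 ^ B := Nat.lt_pow_self (by norm_num)
  have : 4 * 8 ^ B ≤ B := h1
  omega

abbrev mm : ℕ := 2 ^ 40
abbrev bb : ℕ := 2 ^ 39

lemma mm_cast : ((mm : ℕ) : ℝ) = (2 : ℝ) ^ 40 := by norm_num [mm]
lemma bb_cast : ((bb : ℕ) : ℝ) = (2 : ℝ) ^ 39 := by norm_num [bb]

/-- the digit sequence of `x` attached to a sequence of digits in base `2^39` -/
noncomputable def xs (τ : ℕ → Fin bb) (p : ℕ) : Fin mm :=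
  if P p then ⟨(τ (cnt p) : ℕ), lt_of_lt_of_le (τ (cnt p)).2 (by norm_num [mm, bb])⟩ else 0

lemma xs_zero (τ : ℕ → Fin bb) (p : ℕ) (hp : ¬ P p) : (xs τ p : ℕ) = 0 := by
  unfold xs; rw [if_neg hp]; rfl

lemma xs_lt (τ : ℕ → Fin bb) (p : ℕ) : (xs τ p : ℕ) < bb := by
  unfold xs
  split_ifs
  · exact (τ (cnt p)).2
  · show 0 < bb
    norm_num [bb]

lemma xs_P (τ : ℕ → Fin bb) (p : ℕ) (hp : P p) : (xs τ p : ℕ) = τ (cnt p) := by
  unfold xs; rw [if_pos hp]

lemma half (y : ℕ → Fin mm) (hy : ∀ p, (y p : ℕ) < bb) : ofDigits y ≤ 1 / 2 := by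
  have h2 : ∀ p, 2 * (y p : ℕ) < mm := fun p => by
    have := hy p
    norm_num [mm, bb] at *
    omega
  have h3 : ofDigits (fun p => (⟨2 * (y p : ℕ), h2 p⟩ : Fin mm)) = 2 * ofDigits y := by
    unfold ofDigits
    rw [← tsum_mul_left]
    congr 1
    ext p
    simp only [ofDigitsTerm]
    push_cast
    ring
  have h4 := ofDigits_le_one (fun p => (⟨2 * (y p : ℕ), h2 p⟩ : Fin mm))
  rw [h3] at h4
  linarith

/-- the separation of two points whose digits first differ at `p` -/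
lemma sep (y z : ℕ → Fin mm) (hy : ∀ p, (y p : ℕ) < bb) (hz : ∀ p, (z p : ℕ) < bb)
    (p : ℕ) (hlt : ∀ i < p, y i = z i) (hne : y p ≠ z p) :
    (1 / 2) * ((mm : ℝ) ^ (p + 1))⁻¹ ≤ |ofDigits y - ofDigits z| := by
  rw [ofDigits_eq_sum_add_ofDigits y (p + 1), ofDigits_eq_sum_add_ofDigits z (p + 1),
    Finset.sum_range_succ, Finset.sum_range_succ]
  have hs : ∑ i ∈ Finset.range p, ofDigitsTerm y i = ∑ i ∈ Finset.range p, ofDigitsTerm z i :=
    Finset.sum_congr rfl fun i hi ↦ by simp [ofDigitsTerm, hlt i (Finset.mem_range.mp hi)]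
  rw [hs]
  have a1 := half (fun i ↦ y (i + (p + 1))) (fun i => hy _)
  have a2 := half (fun i ↦ z (i + (p + 1))) (fun i => hz _)
  have a3 := ofDigits_nonneg (fun i ↦ y (i + (p + 1)))
  have a4 := ofDigits_nonneg (fun i ↦ z (i + (p + 1)))
  set Y := ofDigits (fun i ↦ y (i + (p + 1)))
  set Z := ofDigits (fun i ↦ z (i + (p + 1)))
  set c : ℝ := ((mm : ℝ) ^ (p + 1))⁻¹ with hc
  have hc0 : 0 < c := by positivity
  have e1 : ofDigitsTerm y p = ((y p : ℕ) : ℝ) * c := rfl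
  have e2 : ofDigitsTerm z p = ((z p : ℕ) : ℝ) * c := rfl
  rw [e1, e2]
  have e3 : (∑ i ∈ Finset.range p, ofDigitsTerm z i + ((y p : ℕ) : ℝ) * c + c * Y) -
      (∑ i ∈ Finset.range p, ofDigitsTerm z i + ((z p : ℕ) : ℝ) * c + c * Z)
      = c * ((((y p : ℕ) : ℝ) - ((z p : ℕ) : ℝ)) + (Y - Z)) := by ring
  rw [e3, abs_mul, abs_of_pos hc0]
  have h5 : 1 ≤ |(((y p : ℕ) : ℝ) - ((z p : ℕ) : ℝ))| := by
    have : ((y p : ℕ) : ℤ) - ((z p : ℕ) : ℤ) ≠ 0 := by
      intro h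
      apply hne
      apply Fin.ext
      omega
    have h6 := Int.one_le_abs this
    exact_mod_cast h6
  have h7 : |Y - Z| ≤ 1 / 2 := by rw [abs_le]; constructor <;> linarith
  have h8 : 1 / 2 ≤ |(((y p : ℕ) : ℝ) - ((z p : ℕ) : ℝ)) + (Y - Z)| := by
    have := abs_sub_abs_le_abs_sub (((y p : ℕ) : ℝ) - ((z p : ℕ) : ℝ)) (-(Y - Z))
    rw [sub_neg_eq_add, abs_neg] at this
    linarith
  nlinarith

/-- the Hölder exponent -/
noncomputable def al : NNReal := 39 / 320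

lemma al_coe : ((al : NNReal) : ℝ) = 39 / 320 := by
  unfold al; push_cast; rfl

lemma holder_num (j : ℕ) (D : ℝ) (hD : (1 / 2) * ((mm : ℝ) ^ (8 * j + 5))⁻¹ ≤ D) :
    ((bb : ℝ) ^ j)⁻¹ ≤ 2 ^ 25 * D ^ (39 / 320 : ℝ) := by
  have h1 : (1 / 2) * ((mm : ℝ) ^ (8 * j + 5))⁻¹ = (2 : ℝ) ^ (-((320 * j + 201 : ℕ) : ℝ)) := by
    rw [Real.rpow_neg (by norm_num), Real.rpow_natCast]
    have : (2 : ℝ) ^ (320 * j + 201) = 2 * ((mm : ℝ) ^ (8 * j + 5)) := by
      rw [mm_cast, ← pow_mul]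
      rw [show 320 * j + 201 = 1 + 40 * (8 * j + 5) by ring, pow_add]
      norm_num
    rw [this]
    field_simp
  have h2 : ((bb : ℝ) ^ j)⁻¹ = (2 : ℝ) ^ (-((39 * j : ℕ) : ℝ)) := by
    rw [Real.rpow_neg (by norm_num), Real.rpow_natCast]
    rw [bb_cast, ← pow_mul]
  rw [h1] at hD
  rw [h2]
  have h3 : ((2 : ℝ) ^ (-((320 * j + 201 : ℕ) : ℝ))) ^ (39 / 320 : ℝ) ≤ D ^ (39 / 320 : ℝ) :=
    Real.rpow_le_rpow (by positivity) hD (by norm_num)
  rw [← Real.rpow_mul (by norm_num)] at h3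
  calc (2 : ℝ) ^ (-((39 * j : ℕ) : ℝ))
      ≤ (2 : ℝ) ^ ((25 : ℝ) + (-((320 * j + 201 : ℕ) : ℝ)) * (39 / 320)) := by
        apply Real.rpow_le_rpow_of_exponent_le (by norm_num)
        push_cast
        linarith
    _ = 2 ^ 25 * (2 : ℝ) ^ ((-((320 * j + 201 : ℕ) : ℝ)) * (39 / 320)) := by
        rw [Real.rpow_add (by norm_num)]
        norm_num
    _ ≤ 2 ^ 25 * D ^ (39 / 320 : ℝ) := by gcongr

lemma holder (τ σ : ℕ → Fin bb) :
    |ofDigits τ - ofDigits σ| ≤ 2 ^ 25 * |ofDigits (xs τ) - ofDigits (xs σ)| ^ (39 / 320 : ℝ) := by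
  by_cases h : ∃ p, xs τ p ≠ xs σ p
  · classical
    set p := Nat.find h with hp
    have hne : xs τ p ≠ xs σ p := Nat.find_spec h
    have hlt : ∀ i < p, xs τ i = xs σ i := fun i hi => by
      have := Nat.find_min h hi
      push Not at this
      exact this
    have hPp : P p := by
      by_contra hPp
      apply hne
      apply Fin.ext
      rw [xs_zero _ _ hPp, xs_zero _ _ hPp]
    have hs := sep (xs τ) (xs σ) (xs_lt τ) (xs_lt σ) p hlt hne
    have hc := le_cnt p hPp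
    set j := cnt p with hj
    have hτσ : ∀ i < j, τ i = σ i := by
      intro i hi
      set q := Nat.nth P i with hq
      have hq1 : P q := Nat.nth_mem_of_infinite P_infinite i
      have hq2 : cnt q = i := Nat.count_nth_of_infinite P_infinite i
      have hqp : q < p := by
        by_contra hcon
        push Not at hcon
        have : cnt p ≤ cnt q := Nat.count_monotone _ hcon
        omega
      have := hlt q hqp
      have h1 : (xs τ q : ℕ) = (xs σ q : ℕ) := by rw [this]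
      rw [xs_P _ _ hq1, xs_P _ _ hq1, hq2] at h1
      exact Fin.ext h1
    have h1 := abs_ofDigits_sub_ofDigits_le hτσ
    refine h1.trans (holder_num j _ ?_)
    refine le_trans ?_ hs
    have : ((mm : ℝ) ^ (8 * j + 5))⁻¹ ≤ ((mm : ℝ) ^ (p + 1))⁻¹ := by
      apply inv_anti₀ (by positivity)
      apply pow_le_pow_right₀ (by norm_num [mm]) (by omega)
    linarith
  · push Not at h
    have : τ = σ := by
      ext i
      have hq1 : P (Nat.nth P i) := Nat.nth_mem_of_infinite P_infinite i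
      have hq2 : cnt (Nat.nth P i) = i := Nat.count_nth_of_infinite P_infinite i
      have h1 : (xs τ (Nat.nth P i) : ℕ) = (xs σ (Nat.nth P i) : ℕ) := by rw [h]
      rw [xs_P _ _ hq1, xs_P _ _ hq1, hq2] at h1
      exact h1
    rw [this]
    simp

/-- the Cantor set -/
def E : Set ℝ := Set.range (fun τ : ℕ → Fin bb => ofDigits (xs τ))

open Classical in
/-- the Hölder map -/
noncomputable def f (x : ℝ) : ℝ :=
  if h : ∃ τ : ℕ → Fin bb, ofDigits (xs τ) = x then ofDigits h.choose else 0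

lemma f_spec (x : ℝ) (hx : x ∈ E) : ∃ τ : ℕ → Fin bb, ofDigits (xs τ) = x ∧ f x = ofDigits τ := by
  obtain ⟨τ, hτ⟩ := hx
  have h : ∃ τ : ℕ → Fin bb, ofDigits (xs τ) = x := ⟨τ, hτ⟩
  refine ⟨h.choose, h.choose_spec, ?_⟩
  unfold f; rw [dif_pos h]

lemma f_image : Set.Icc (0 : ℝ) 1 ⊆ f '' E := by
  intro t ht
  obtain ⟨τ, -, hτ⟩ := ofDigits_SurjOn (b := bb) (by norm_num [bb]) ht
  have hx : ofDigits (xs τ) ∈ E := ⟨τ, rfl⟩
  refine ⟨_, hx, ?_⟩
  obtain ⟨σ, h1, h2⟩ := f_spec _ hx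
  rw [h2, ← hτ]
  have h3 := holder σ τ
  rw [h1, sub_self, abs_zero, Real.zero_rpow (by norm_num), mul_zero] at h3
  have := abs_nonpos_iff.1 h3
  linarith

lemma f_holder : HolderOnWith (2 ^ 25) al f E := by
  intro x hx y hy
  obtain ⟨τ, h1, h2⟩ := f_spec x hx
  obtain ⟨σ, h3, h4⟩ := f_spec y hy
  have h := holder τ σ
  rw [h1, h3, ← h2, ← h4] at h
  rw [edist_dist, edist_dist, Real.dist_eq, Real.dist_eq, al_coe,
    ENNReal.ofReal_rpow_of_nonneg (abs_nonneg _) (by norm_num)]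
  have e : ((2 ^ 25 : NNReal) : ENNReal) = ENNReal.ofReal (2 ^ 25) := by
    rw [ENNReal.ofReal_pow (by norm_num)]
    simp
  rw [e, ← ENNReal.ofReal_mul (by positivity)]
  exact ENNReal.ofReal_le_ofReal h

lemma al_le_dimH : (al : ENNReal) ≤ dimH E := by
  have h1 := f_holder.dimH_image_le (by unfold al; positivity)
  have h2 : (1 : ENNReal) ≤ dimH (f '' E) := by
    have h3 : dimH (Set.Icc (0 : ℝ) 1) = 1 := by
      rw [Real.dimH_of_nonempty_interior]
      · simp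
      · rw [interior_Icc]; exact ⟨1/2, by norm_num⟩
    rw [← h3]
    exact dimH_mono f_image
  have h4 := h2.trans h1
  rw [ENNReal.le_div_iff_mul_le (Or.inl (by unfold al; positivity)) (Or.inl ENNReal.coe_ne_top)] at h4
  simpa using h4

end Pool.Agent.W532.Slice
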