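import Pool.Agent.W532.Slice.Lower

/-!
Upper bound `dimH ≤ 16/15` for the cross carpet with scales `2^40`, `2^120 + 1`.
-/

set_option autoImplicit false

namespace Pool.Agent.W532.Slice

open Real MeasureTheory Filter Topology

/-- the cross -/
def Dg (m n : ℕ) : Finset (ℕ × ℕ) := (Finset.range m ×ˢ {0}) ∪ ({0} ×ˢ Finset.range n)

lemma mem_Dg (m n : ℕ) (d : ℕ × ℕ) :
    d ∈ Dg m n ↔ (d.1 < m ∧ d.2 = 0) ∨ (d.1 = 0 ∧ d.2 < n) := by
  unfold Dg
  simp only [Finset.mem_union, Finset.mem_product, Finset.mem_range, Finset.mem_singleton]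

lemma Dg_lt (m n : ℕ) (hm : 0 < m) (hn : 0 < n) (d : ℕ × ℕ) (hd : d ∈ Dg m n) :
    d.1 < m ∧ d.2 < n := by
  rcases (mem_Dg m n d).1 hd with h | h
  · exact ⟨h.1, by rw [h.2]; exact hn⟩
  · exact ⟨by rw [h.1]; exact hm, h.2⟩

/-- the carpet -/
def F (m n : ℕ) : Set (ℝ × ℝ) := {p : ℝ × ℝ | ∃ d : ℕ → ℕ × ℕ, (∀ k, d k ∈ Dg m n) ∧
                p.1 = ∑' k, ((d k).1 : ℝ) / (m : ℝ) ^ (k + 1) ∧
                p.2 = ∑' k, ((d k).2 : ℝ) / (n : ℝ) ^ (k + 1)}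

variable (m n : ℕ) (hm : (m : ℝ) = 2 ^ 40) (hn : (n : ℝ) = 2 ^ 120 + 1)

/-! ### weights and counting -/

/-- weight of a pair -/
noncomputable def w1 (d : ℕ × ℕ) : ℝ := if d.1 = 0 then (1 / 2) ^ 80 else 1
/-- weight of a column digit -/
noncomputable def w2 (i : ℕ) : ℝ := if i = 0 then 2 ^ 40 else 1

include hm hn in
lemma sum_w1 : ∑ d ∈ Dg m n, w1 d ≤ 3 * 2 ^ 40 := by
  have h1 : ∑ d ∈ Dg m n, w1 d ≤ ∑ d ∈ Finset.range m ×ˢ ({0} : Finset ℕ), w1 d
      + ∑ d ∈ ({0} : Finset ℕ) ×ˢ Finset.range n, w1 d := by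
    rw [← Finset.sum_union_inter]
    have : 0 ≤ ∑ d ∈ (Finset.range m ×ˢ ({0} : Finset ℕ)) ∩ (({0} : Finset ℕ) ×ˢ Finset.range n),
        w1 d := Finset.sum_nonneg (fun d _ => by unfold w1; split_ifs <;> positivity)
    unfold Dg
    linarith
  have h2 : ∑ d ∈ Finset.range m ×ˢ ({0} : Finset ℕ), w1 d ≤ (m : ℝ) := by
    calc ∑ d ∈ Finset.range m ×ˢ ({0} : Finset ℕ), w1 d
        ≤ ∑ d ∈ Finset.range m ×ˢ ({0} : Finset ℕ), (1 : ℝ) := by
          apply Finset.sum_le_sum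
          intro d _
          unfold w1; split_ifs
          · exact pow_le_one₀ (by norm_num) (by norm_num)
          · exact le_rfl
      _ = m := by
          rw [Finset.sum_const, Finset.card_product, Finset.card_range]; simp
  have h3 : ∑ d ∈ ({0} : Finset ℕ) ×ˢ Finset.range n, w1 d = (n : ℝ) * (1 / 2) ^ 80 := by
    rw [Finset.sum_product]
    simp only [Finset.sum_singleton, w1, if_true, Finset.sum_const, Finset.card_range,
      nsmul_eq_mul]
  rw [h3, hn] at h1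
  rw [hm] at h2
  have h4 : ((2 : ℝ) ^ 120 + 1) * (1 / 2) ^ 80 ≤ 2 * 2 ^ 40 := by norm_num
  linarith

include hm in
lemma sum_w2 (hm0 : 0 < m) : ∑ i ∈ Finset.range m, w2 i ≤ 2 * 2 ^ 40 := by
  have h1 : ∑ i ∈ Finset.range m, w2 i ≤ ∑ i ∈ Finset.range m, ((1 : ℝ) + if i = 0 then 2 ^ 40 else 0) := by
    apply Finset.sum_le_sum
    intro i _
    unfold w2; split_ifs <;> norm_num
  refine h1.trans ?_
  rw [Finset.sum_add_distrib, Finset.sum_const, Finset.card_range, Finset.sum_ite_eq',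
    if_pos (Finset.mem_range.2 hm0), nsmul_eq_mul, hm]
  norm_num

/-- words of level `k` -/
abbrev W (k : ℕ) : Type := (Fin k → ℕ × ℕ) × (Fin (2 * k) → ℕ)

/-- number of vanishing column digits in the first and in the second part -/
def z1 {k : ℕ} (q : W k) : ℕ := (Finset.univ.filter fun i => (q.1 i).1 = 0).card
def z2 {k : ℕ} (q : W k) : ℕ := (Finset.univ.filter fun i => q.2 i = 0).card

/-- the admissible words of level `k` -/
def Gd (m n k : ℕ) : Finset (W k) :=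
  ((Fintype.piFinset fun _ : Fin k => Dg m n) ×ˢ (Fintype.piFinset fun _ : Fin (2 * k) => Finset.range m)).filter
    (fun q => 30 * z1 q ≤ 10 * (z1 q + z2 q) + k)

lemma prod_w1 {k : ℕ} (w : Fin k → ℕ × ℕ) :
    ∏ i, w1 (w i) = ((1 / 2 : ℝ) ^ 80) ^ (Finset.univ.filter fun i => (w i).1 = 0).card := by
  unfold w1
  rw [Finset.prod_ite]
  simp

lemma prod_w2 {k : ℕ} (v : Fin k → ℕ) :
    ∏ i, w2 (v i) = ((2 : ℝ) ^ 40) ^ (Finset.univ.filter fun i => v i = 0).card := by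
  unfold w2
  rw [Finset.prod_ite]
  simp

include hm hn in
lemma card_Gd (hm0 : 0 < m) (k : ℕ) : ((Gd m n k).card : ℝ) ≤ ((2 : ℝ) ^ 124 * 12) ^ k := by
  have h1 : ((Gd m n k).card : ℝ) ≤ ∑ q ∈ Gd m n k, (2 : ℝ) ^ (4 * k) * ((∏ i, w1 (q.1 i)) * ∏ i, w2 (q.2 i)) := by
    rw [Finset.card_eq_sum_ones]
    push_cast
    apply Finset.sum_le_sum
    intro q hq
    have hq' := (Finset.mem_filter.1 hq).2
    rw [prod_w1, prod_w2]
    change (1 : ℝ) ≤ 2 ^ (4 * k) * (((1 / 2 : ℝ) ^ 80) ^ (z1 q) * ((2 : ℝ) ^ 40) ^ (z2 q))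
    have e : (2 : ℝ) ^ (4 * k) * (((1 / 2 : ℝ) ^ 80) ^ (z1 q) * ((2 : ℝ) ^ 40) ^ (z2 q))
        = 2 ^ (4 * k + 40 * z2 q) / 2 ^ (80 * z1 q) := by
      rw [← pow_mul, ← pow_mul, pow_add, one_div, inv_pow]
      field_simp
    rw [e, le_div_iff₀ (by positivity), one_mul]
    apply pow_le_pow_right₀ (by norm_num)
    omega
  refine h1.trans ?_
  have h2 : ∑ q ∈ Gd m n k, (2 : ℝ) ^ (4 * k) * ((∏ i, w1 (q.1 i)) * ∏ i, w2 (q.2 i))
      ≤ ∑ q ∈ ((Fintype.piFinset fun _ : Fin k => Dg m n) ×ˢ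
          (Fintype.piFinset fun _ : Fin (2 * k) => Finset.range m)),
          (2 : ℝ) ^ (4 * k) * ((∏ i, w1 (q.1 i)) * ∏ i, w2 (q.2 i)) := by
    apply Finset.sum_le_sum_of_subset_of_nonneg (Finset.filter_subset _ _)
    intro q _ _
    rw [prod_w1, prod_w2]; positivity
  refine h2.trans ?_
  rw [← Finset.mul_sum, Finset.sum_product]
  simp only
  have h3 : ∑ x ∈ Fintype.piFinset (fun _ : Fin k => Dg m n),
      ∑ y ∈ Fintype.piFinset (fun _ : Fin (2 * k) => Finset.range m), (∏ i, w1 (x i)) * ∏ i, w2 (y i)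
      = (∑ d ∈ Dg m n, w1 d) ^ k * (∑ i ∈ Finset.range m, w2 i) ^ (2 * k) := by
    rw [← Finset.sum_mul_sum]
    congr 1
    · rw [← Finset.prod_univ_sum]; simp
    · rw [← Finset.prod_univ_sum]; simp
  rw [h3]
  have h4 : 0 ≤ ∑ d ∈ Dg m n, w1 d := Finset.sum_nonneg (fun d _ => by unfold w1; split_ifs <;> positivity)
  have h5 : 0 ≤ ∑ i ∈ Finset.range m, w2 i :=
    Finset.sum_nonneg (fun d _ => by unfold w2; split_ifs <;> positivity)
  have hA := sum_w1 m n hm hn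
  have hB := sum_w2 m hm hm0
  set A := ∑ d ∈ Dg m n, w1 d
  set B := ∑ i ∈ Finset.range m, w2 i
  calc (2 : ℝ) ^ (4 * k) * (A ^ k * B ^ (2 * k))
      ≤ (2 : ℝ) ^ (4 * k) * ((3 * 2 ^ 40) ^ k * (2 * 2 ^ 40) ^ (2 * k)) := by
        gcongr
    _ = ((2 : ℝ) ^ 124 * 12) ^ k := by
        rw [pow_mul, pow_mul, ← mul_pow, ← mul_pow]
        congr 1
        norm_num

/-! ### the combinatorial lemma -/

lemma exists_scale (c : ℕ → ℕ) (hc : ∀ k, c k ≤ k) (k0 : ℕ) (hk0 : 0 < k0) :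
    ∃ k, k0 ≤ k ∧ 30 * c k ≤ 10 * c (3 * k) + k := by
  by_contra hcon
  push Not at hcon
  have h : ∀ j : ℕ, 30 * c (3 ^ j * k0) + j * (3 ^ j * k0) ≤ 30 * (3 ^ j * k0) := by
    intro j
    induction j with
    | zero => have := hc (3 ^ 0 * k0); omega
    | succ j ih =>
      have h1 := hcon (3 ^ j * k0) (by
        have : 0 < 3 ^ j := by positivity
        nlinarith)
      have e : 3 ^ (j + 1) * k0 = 3 * (3 ^ j * k0) := by rw [pow_succ]; ring
      rw [e]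
      set a := 3 ^ j * k0
      have h2 : (j + 1) * (3 * a) = 3 * (j * a) + 3 * a := by ring
      rw [h2]
      omega
  have h31 := h 31
  have h0 : 0 < 3 ^ 31 * k0 := by positivity
  omega

/-! ### the cells -/

/-- corner coordinates -/
noncomputable def Sx (m : ℕ) {k : ℕ} (q : W k) : ℝ :=
  ∑ i : Fin k, ((q.1 i).1 : ℝ) / (m : ℝ) ^ ((i : ℕ) + 1)
    + ∑ i : Fin (2 * k), ((q.2 i : ℕ) : ℝ) / (m : ℝ) ^ (k + (i : ℕ) + 1)
noncomputable def Sy (n : ℕ) {k : ℕ} (q : W k) : ℝ :=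
  ∑ i : Fin k, ((q.1 i).2 : ℝ) / (n : ℝ) ^ ((i : ℕ) + 1)

/-- the cell -/
noncomputable def Cell (m n : ℕ) {k : ℕ} (q : W k) : Set (ℝ × ℝ) :=
  Set.Icc (Sx m q) (Sx m q + (1 / 2) ^ (120 * k)) ×ˢ Set.Icc (Sy n q) (Sy n q + (1 / 2) ^ (120 * k))

lemma Cell_diam {k : ℕ} (q : W k) : Metric.ediam (Cell m n q) ≤ ENNReal.ofReal ((1 / 2) ^ (120 * k)) := by
  apply Metric.ediam_le
  rintro ⟨x1, x2⟩ ⟨hx1, hx2⟩ ⟨y1, y2⟩ ⟨hy1, hy2⟩
  rw [Prod.edist_eq]
  simp only [Set.mem_Icc] at *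
  apply max_le
  · rw [edist_dist, Real.dist_eq]
    apply ENNReal.ofReal_le_ofReal
    rw [abs_le]; constructor <;> linarith
  · rw [edist_dist, Real.dist_eq]
    apply ENNReal.ofReal_le_ofReal
    rw [abs_le]; constructor <;> linarith

/-- expansions lie in the interval of their truncation -/
lemma trunc (b : ℕ) (x : ℕ → ℕ) (hx : ∀ i, x i < b) (K : ℕ) :
    ∑ i ∈ Finset.range K, (x i : ℝ) / (b : ℝ) ^ (i + 1) ≤ ∑' i, (x i : ℝ) / (b : ℝ) ^ (i + 1) ∧
    ∑' i, (x i : ℝ) / (b : ℝ) ^ (i + 1) ≤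
      ∑ i ∈ Finset.range K, (x i : ℝ) / (b : ℝ) ^ (i + 1) + ((b : ℝ) ^ K)⁻¹ := by
  set y : ℕ → Fin b := fun i => ⟨x i, hx i⟩ with hy
  have e1 : ∑' i, (x i : ℝ) / (b : ℝ) ^ (i + 1) = ofDigits y := by
    unfold ofDigits ofDigitsTerm
    simp only [hy, div_eq_mul_inv]
  have e2 : ∑ i ∈ Finset.range K, (x i : ℝ) / (b : ℝ) ^ (i + 1)
      = ∑ i ∈ Finset.range K, ofDigitsTerm y i := by
    unfold ofDigitsTerm
    simp only [hy, div_eq_mul_inv]
  rw [e1, e2, ofDigits_eq_sum_add_ofDigits y K]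
  have h1 := ofDigits_nonneg (fun i ↦ y (i + K))
  have h2 := ofDigits_le_one (fun i ↦ y (i + K))
  have h3 : 0 ≤ ((b : ℝ) ^ K)⁻¹ := by positivity
  constructor
  · nlinarith
  · nlinarith

include hm hn in
lemma cover (hm0 : 0 < m) (hn0 : 0 < n) (K : ℕ) : F m n ⊆ ⋃ i : (Σ k : ℕ, {q : W (K + 1 + k) // q ∈ Gd m n (K + 1 + k)}), Cell m n i.2.1 := by
  rintro ⟨x, y⟩ ⟨d, hd, hx, hy⟩
  simp only at hx hy
  obtain ⟨k, hk0, hk⟩ := exists_scale (fun k => Nat.count (fun i => (d i).1 = 0) k)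
    (fun k => Nat.count_le _) (K + 1) (by omega)
  obtain ⟨k', rfl⟩ : ∃ k', k = K + 1 + k' := ⟨k - (K + 1), by omega⟩
  set k := K + 1 + k' with hkdef
  set q : W k := (fun i => d i, fun i => (d (k + i)).1) with hq
  have hz1 : z1 q = Nat.count (fun i => (d i).1 = 0) k := by
    rw [Nat.count_eq_card_filter_range]
    unfold z1
    simp only [hq]
    rw [← Finset.card_map Fin.valEmbedding]
    congr 1
    ext a
    simp only [Finset.mem_map, Finset.mem_filter, Finset.mem_univ, true_and, Fin.valEmbedding_apply,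
      Finset.mem_range]
    constructor
    · rintro ⟨i, hi, rfl⟩; exact ⟨i.2, hi⟩
    · rintro ⟨h1, h2⟩; exact ⟨⟨a, h1⟩, h2, rfl⟩
  have hz2 : z1 q + z2 q = Nat.count (fun i => (d i).1 = 0) (3 * k) := by
    rw [show 3 * k = k + 2 * k by ring, Nat.count_add, hz1]
    congr 1
    rw [Nat.count_eq_card_filter_range]
    unfold z2
    simp only [hq]
    rw [← Finset.card_map Fin.valEmbedding]
    congr 1
    ext a
    simp only [Finset.mem_map, Finset.mem_filter, Finset.mem_univ, true_and, Fin.valEmbedding_apply,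
      Finset.mem_range]
    constructor
    · rintro ⟨i, hi, rfl⟩; exact ⟨i.2, hi⟩
    · rintro ⟨h1, h2⟩; exact ⟨⟨a, h1⟩, h2, rfl⟩
  have hqG : q ∈ Gd m n k := by
    unfold Gd
    rw [Finset.mem_filter, Finset.mem_product, Fintype.mem_piFinset, Fintype.mem_piFinset]
    refine ⟨⟨fun i => hd _, fun i => Finset.mem_range.2 (Dg_lt m n hm0 hn0 _ (hd _)).1⟩, ?_⟩
    rw [hz2, hz1]
    exact hk
  rw [Set.mem_iUnion]
  refine ⟨⟨k', q, hqG⟩, ?_⟩
  have tx := trunc m (fun i => (d i).1) (fun i => (Dg_lt m n hm0 hn0 _ (hd i)).1) (3 * k)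
  have ty := trunc n (fun i => (d i).2) (fun i => (Dg_lt m n hm0 hn0 _ (hd i)).2) k
  have ex : ∑ i ∈ Finset.range (3 * k), (((d i).1 : ℕ) : ℝ) / (m : ℝ) ^ (i + 1) = Sx m q := by
    unfold Sx
    simp only [hq]
    rw [show 3 * k = k + 2 * k by ring, Finset.sum_range_add,
      Fin.sum_univ_eq_sum_range (fun i => ((d i).1 : ℝ) / (m : ℝ) ^ (i + 1)) k,
      Fin.sum_univ_eq_sum_range (fun i => ((d (k + i)).1 : ℝ) / (m : ℝ) ^ (k + i + 1)) (2 * k)]
  have ey : ∑ i ∈ Finset.range k, (((d i).2 : ℕ) : ℝ) / (n : ℝ) ^ (i + 1) = Sy n q := by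
    unfold Sy
    simp only [hq]
    rw [Fin.sum_univ_eq_sum_range (fun i => ((d i).2 : ℝ) / (n : ℝ) ^ (i + 1)) k]
  rw [ex, ← hx] at tx
  rw [ey, ← hy] at ty
  have b1 : ((m : ℝ) ^ (3 * k))⁻¹ = (1 / 2) ^ (120 * k) := by
    rw [hm, ← pow_mul, one_div, inv_pow]
    congr 2; ring
  have b2 : ((n : ℝ) ^ k)⁻¹ ≤ (1 / 2) ^ (120 * k) := by
    rw [hn, one_div, inv_pow, pow_mul]
    apply inv_anti₀ (by positivity)
    gcongr
    linarith
  rw [b1] at tx
  refine ⟨⟨tx.1, tx.2⟩, ⟨ty.1, ty.2.trans (by linarith)⟩⟩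

lemma cell_cost {k : ℕ} (q : W k) :
    Metric.ediam (Cell m n q) ^ (16 / 15 : ℝ) ≤ ENNReal.ofReal ((1 / 2) ^ (128 * k)) := by
  calc Metric.ediam (Cell m n q) ^ (16 / 15 : ℝ) ≤ (ENNReal.ofReal ((1 / 2) ^ (120 * k))) ^ (16 / 15 : ℝ) :=
        ENNReal.rpow_le_rpow (Cell_diam m n q) (by norm_num)
    _ = ENNReal.ofReal ((1 / 2) ^ (128 * k)) := by
        rw [ENNReal.ofReal_rpow_of_nonneg (by positivity) (by norm_num)]
        congr 1
        rw [← Real.rpow_natCast, ← Real.rpow_natCast, ← Real.rpow_mul (by norm_num)]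
        congr 1
        push_cast
        ring

include hm hn in
lemma level_cost (hm0 : 0 < m) (k : ℕ) :
    ∑' q : {q : W k // q ∈ Gd m n k}, Metric.ediam (Cell m n q.1) ^ (16 / 15 : ℝ)
      ≤ ENNReal.ofReal ((3 / 4) ^ k) := by
  calc ∑' q : {q : W k // q ∈ Gd m n k}, Metric.ediam (Cell m n q.1) ^ (16 / 15 : ℝ)
      ≤ ∑' q : {q : W k // q ∈ Gd m n k}, ENNReal.ofReal ((1 / 2) ^ (128 * k)) :=
        ENNReal.tsum_le_tsum (fun q => cell_cost m n q.1)
    _ = ((Gd m n k).card : ENNReal) * ENNReal.ofReal ((1 / 2) ^ (128 * k)) := by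
        rw [tsum_fintype, Finset.sum_const, nsmul_eq_mul]
        congr 1
        simp
    _ = ENNReal.ofReal (((Gd m n k).card : ℝ) * (1 / 2) ^ (128 * k)) := by
        rw [ENNReal.ofReal_mul (by positivity), ENNReal.ofReal_natCast]
    _ ≤ ENNReal.ofReal ((3 / 4) ^ k) := by
        apply ENNReal.ofReal_le_ofReal
        calc ((Gd m n k).card : ℝ) * (1 / 2) ^ (128 * k)
            ≤ ((2 : ℝ) ^ 124 * 12) ^ k * (1 / 2) ^ (128 * k) := by
              gcongr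
              exact card_Gd m n hm hn hm0 k
          _ = (3 / 4) ^ k := by
              rw [pow_mul, ← mul_pow]
              congr 1
              norm_num

include hm hn in
lemma measure_F (hm0 : 0 < m) (hn0 : 0 < n) : Measure.hausdorffMeasure (16 / 15 : ℝ) (F m n) = 0 := by
  have key : ∀ K : ℕ, ∑' i : (Σ k : ℕ, {q : W (K + 1 + k) // q ∈ Gd m n (K + 1 + k)}),
      Metric.ediam (Cell m n i.2.1) ^ (16 / 15 : ℝ) ≤ ENNReal.ofReal (4 * (3 / 4) ^ (K + 1)) := by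
    intro K
    rw [ENNReal.tsum_sigma']
    calc ∑' (k : ℕ) (q : {q : W (K + 1 + k) // q ∈ Gd m n (K + 1 + k)}),
        Metric.ediam (Cell m n q.1) ^ (16 / 15 : ℝ)
        ≤ ∑' k : ℕ, ENNReal.ofReal ((3 / 4) ^ (K + 1 + k)) :=
          ENNReal.tsum_le_tsum (fun k => level_cost m n hm hn hm0 (K + 1 + k))
      _ = ENNReal.ofReal (∑' k : ℕ, (3 / 4) ^ (K + 1 + k)) := by
          rw [ENNReal.ofReal_tsum_of_nonneg (fun k => by positivity)]
          simp_rw [pow_add _ (K + 1)]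
          exact (summable_geometric_of_lt_one (by norm_num) (by norm_num)).mul_left _
      _ = ENNReal.ofReal (4 * (3 / 4) ^ (K + 1)) := by
          congr 1
          simp_rw [pow_add _ (K + 1)]
          rw [tsum_mul_left, tsum_geometric_of_lt_one (by norm_num) (by norm_num)]
          norm_num
          ring
  have h := Measure.hausdorffMeasure_le_liminf_tsum (X := ℝ × ℝ) (16 / 15 : ℝ) (F m n) (l := atTop)
    (ι := fun K : ℕ => (Σ k : ℕ, {q : W (K + 1 + k) // q ∈ Gd m n (K + 1 + k)}))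
    (fun K : ℕ => ENNReal.ofReal ((1 / 2) ^ K)) ?_ (fun K i => Cell m n i.2.1) ?_ ?_
  · refine le_antisymm (h.trans ?_) zero_le
    have h2 : Tendsto (fun K : ℕ => ENNReal.ofReal (4 * (3 / 4) ^ (K + 1))) atTop (𝓝 0) := by
      rw [← ENNReal.ofReal_zero]
      apply ENNReal.tendsto_ofReal
      have h3 : Tendsto (fun K : ℕ => (3 / 4 : ℝ) ^ (K + 1)) atTop (𝓝 0) :=
        (tendsto_pow_atTop_nhds_zero_of_lt_one (by norm_num) (by norm_num)).comp (tendsto_add_atTop_nat 1)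
      simpa using h3.const_mul 4
    calc liminf (fun K => ∑' i : (Σ k : ℕ, {q : W (K + 1 + k) // q ∈ Gd m n (K + 1 + k)}),
        Metric.ediam (Cell m n i.2.1) ^ (16 / 15 : ℝ)) atTop
        ≤ liminf (fun K : ℕ => ENNReal.ofReal (4 * (3 / 4) ^ (K + 1))) atTop :=
          liminf_le_liminf (Eventually.of_forall key)
      _ = 0 := h2.liminf_eq
  · rw [← ENNReal.ofReal_zero]
    apply ENNReal.tendsto_ofReal
    exact tendsto_pow_atTop_nhds_zero_of_lt_one (by norm_num) (by norm_num)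
  · refine Eventually.of_forall (fun K i => (Cell_diam m n i.2.1).trans ?_)
    apply ENNReal.ofReal_le_ofReal
    apply pow_le_pow_of_le_one (by norm_num) (by norm_num)
    omega
  · exact Eventually.of_forall (fun K => cover m n hm hn hm0 hn0 K)

include hm hn in
lemma dimH_F (hm0 : 0 < m) (hn0 : 0 < n) : dimH (F m n) ≤ ((16 / 15 : NNReal) : ENNReal) := by
  apply dimH_le_of_hausdorffMeasure_ne_top
  have e : (((16 / 15 : NNReal) : NNReal) : ℝ) = (16 / 15 : ℝ) := by push_cast; rfl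
  rw [e, measure_F m n hm hn hm0 hn0]
  exact ENNReal.zero_ne_top

end Pool.Agent.W532.Slice
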